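import Pool.Agent.Y763.HB.F

/-!
# The logarithmically averaged variance is at least half of the conjectured value, unconditionally

`VL T Y` is the average over `1 ≤ X ≤ Y`, with respect to `dX / X`, of the normalised variance
`V(X; X/T) / (X/T)` of the Möbius function in intervals of length `X / T`. The Good-Churchhouse
conjecture predicts the value `1/ζ(2) = 6 / π²`. Without any hypothesis
`liminf_{T → ∞} liminf_{Y → ∞} VL T Y ≥ 3 / π²`.
-/

set_option autoImplicit false

open Filter Topology

namespace Pool.Agent.Results.MP_0575cc_nt.HalfOfConjecture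

open Pool.Agent.Y763.GC (VL)

/-- The averaged variance is at least half of the conjectured value `6 / π²`. -/
theorem result (ε : ℝ) (hε : 0 < ε) :
    ∀ᶠ T : ℝ in atTop, ∀ᶠ Y : ℝ in atTop, 3 / Real.pi ^ 2 - ε ≤ VL T Y :=
  Pool.Agent.Y763.HB.lower hε

end Pool.Agent.Results.MP_0575cc_nt.HalfOfConjecture
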