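import Pool.Agent.Y763.GC.F

/-!
# The logarithmically averaged Good-Churchhouse asymptotics and Gonek's conjecture

`VL T Y` is the average over `1 ≤ X ≤ Y`, with respect to `dX / X`, of the normalised variance
`V(X; X/T) / (X/T)`. It tends to `1/ζ(2)` in the iterated limit `Y → ∞`, `T → ∞` if and only if all
zeros are simple and on the critical line and `∑_{0 < γ ≤ T} 1 / |ζ'(ρ)|² ~ 3 T / π³`.
-/

set_option autoImplicit false

open Filter Topology

namespace Pool.Agent.Results.MP_0575cc_nt.LogVarianceIffGonek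

open Pool.Agent.Y763.GC (VL JJm)

/-- The case `c = 6 / π²` is the logarithmically averaged Good-Churchhouse asymptotics; then
`c / (2 π) = 3 / π³`, the constant of Gonek's conjecture. -/
theorem result (c : ℝ) : List.TFAE [
    ∀ ε : ℝ, 0 < ε → ∀ᶠ T : ℝ in atTop, ∀ᶠ Y : ℝ in atTop, |VL T Y - c| < ε,
    ∀ ε : ℝ, 0 < ε → ∀ᶠ T : ℝ in atTop, ∃ᶠ Y : ℝ in atTop, |VL T Y - c| < ε,
    (∀ ρ : ℂ, riemannZeta ρ = 0 → 0 < ρ.re → ρ.re < 1 → ρ.re = 1 / 2 ∧ deriv riemannZeta ρ ≠ 0) ∧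
      Tendsto (fun T : ℝ => JJm T / T) atTop (𝓝 (c / (2 * Real.pi)))] :=
  Pool.Agent.Y763.GC.main c

end Pool.Agent.Results.MP_0575cc_nt.LogVarianceIffGonek
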