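import Pool.Agent.Y885.GW3

set_option autoImplicit false

/-!
# Mean squares of the Moebius function over windows moved by few elements of arbitrary sets

The problem asks for the mean square of `∑ j, μ(x + j)` over windows of consecutive integers. Here every point `h j` of
the window (in fact `h j` may be an arbitrary integer, e.g. `h j = h + j`) is moved by the sum of a few elements of an
arbitrary set `A j`; nothing is assumed but that `A j` contains an element of every interval `[x, l x]`. Then the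
shifts of the Moebius function are almost orthogonal, with a saving of an arbitrary power of `log N`, for up to
`log ^ κ N` points, all sets of points and all coefficients at once, in all intervals of at least `N / log ^ κ N`
integers up to `N`. In particular the mean squares over all windows of `b ≤ log ^ κ N` points are
`(6 / π ^ 2 + O(log ^ (-U) N)) b`.
-/

namespace Pool.Agent.Results.MP_0575cc_nt.OrthogonalShifts

open Finset

/-- `σ S h j = h j + ∑ a ∈ S j, a`: the point `h j`, moved by the elements of `S j`. -/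
def σ (S : ℕ → Finset ℕ) (h : ℕ → ℕ) (j : ℕ) : ℕ := h j + ∑ a ∈ S j, a

/-- The mean square of `∑ j ∈ J, c j * μ(x + σ j)` over the integers `x` in `(Z, Z + Y]`. -/
noncomputable def V (σ : ℕ → ℕ) (J : Finset ℕ) (c : ℕ → ℝ) (Z Y : ℕ) : ℝ :=
  (∑ x ∈ Ioc Z (Z + Y), (∑ j ∈ J, c j * ((ArithmeticFunction.moebius (x + σ j) : ℤ) : ℝ)) ^ 2) / Y

/-- For all `l ≥ 2`, `κ` and `U` there is a constant `C` such that for all `H` and `B` there is an `N₀` with the following
property. Let `A 0, A 1, …` be arbitrary sets of integers each of which contains an element of every interval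
`[x, l x]`, `x ≥ 1` (the constants `C` and `N₀` do not depend on these sets). Let `N ≥ N₀`, and let
`0 ≤ h 0, h 1, … ≤ B N` be arbitrary integers. Then there are sets `S j` of at most `C (log log N) ^ 2` elements of
`A j`, all between `log ^ H N` and `N / log ^ H N`, such that the following holds for ALL finite sets `J` of indices
`j ≤ log ^ κ N`, all real coefficients `c j` and all intervals `(Z, Z + Y]` of at least `N / log ^ κ N` integers in
`(0, N]`: the mean square of `∑ j ∈ J, c j * μ(x + h j + ∑ S j)` over the `x` in `(Z, Z + Y]` differs from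
`6 / π ^ 2 * ∑ j ∈ J, c j ^ 2` by at most `(∑ j ∈ J, c j ^ 2) / log ^ U N`. -/
theorem result (l κ U : ℕ) (hl : 2 ≤ l) : ∃ C : ℝ, ∀ H B : ℕ, ∃ N₀ : ℕ,
    ∀ A : ℕ → Set ℕ, (∀ j, ∀ x : ℕ, 1 ≤ x → ∃ a ∈ A j, x ≤ a ∧ a ≤ l * x) →
      ∀ N : ℕ, N₀ ≤ N → ∀ h : ℕ → ℕ, (∀ j, h j ≤ B * N) →
        ∃ S : ℕ → Finset ℕ,
          (∀ j, ∀ a ∈ S j, a ∈ A j ∧ Real.log N ^ H ≤ a ∧ (a : ℝ) ≤ N / Real.log N ^ H) ∧
          (∀ j, ((S j).card : ℝ) ≤ C * Real.log (Real.log N) ^ 2) ∧
          ∀ J : Finset ℕ, (∀ j ∈ J, (j : ℝ) ≤ Real.log N ^ κ) → ∀ c : ℕ → ℝ,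
          ∀ Z Y : ℕ, Z + Y ≤ N → (N : ℝ) ≤ Y * Real.log N ^ κ →
            |V (σ S h) J c Z Y - 6 / Real.pi ^ 2 * ∑ j ∈ J, c j ^ 2| ≤ (∑ j ∈ J, c j ^ 2) / Real.log N ^ U :=
  Pool.Agent.Y885.gw_orth l κ U hl

end Pool.Agent.Results.MP_0575cc_nt.OrthogonalShifts
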