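import Pool.Agent.Y763.GC.G3

/-!
# Uniform bound of the conjectured order for the logarithmically averaged variance

`VL T Y` is the average over `1 ≤ X ≤ Y`, with respect to `dX / X`, of `V(X; X/T) / (X/T)`. It is
bounded uniformly in `T ≥ 1` and `Y ≥ 2` (so that `T` may depend on `Y`, and all sizes of `H = X/T`
are covered) if and only if all zeros are simple and on the critical line and
`∑_{0 < γ ≤ T} 1 / |ζ'(ρ)|² ≪ T`.
-/

set_option autoImplicit false

open Filter Topology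

namespace Pool.Agent.Results.MP_0575cc_nt.UniformLogVarianceBound

open Pool.Agent.Y763.GC (VL JJm)

/-- A uniform bound of the conjectured order for the averaged variance is equivalent to RH, the
simplicity of the zeros and `J_{-1}(T) ≪ T`. -/
theorem result : List.TFAE [
    ∃ C : ℝ, ∀ T Y : ℝ, 1 ≤ T → 2 ≤ Y → VL T Y ≤ C,
    ∃ C : ℝ, ∀ᶠ T : ℝ in atTop, ∃ᶠ Y : ℝ in atTop, VL T Y ≤ C,
    (∀ ρ : ℂ, riemannZeta ρ = 0 → 0 < ρ.re → ρ.re < 1 → ρ.re = 1 / 2 ∧ deriv riemannZeta ρ ≠ 0) ∧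
      ∃ C : ℝ, ∀ T : ℝ, 1 ≤ T → JJm T ≤ C * T] :=
  Pool.Agent.Y763.GC.main2

end Pool.Agent.Results.MP_0575cc_nt.UniformLogVarianceBound
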